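import Pool.Agent.KT3.StmtsA

set_option autoImplicit false

/-!
# KT3, row LFD: decomposition of the cone of the wall
-/

namespace Pool.Agent.KT3.H16

open Matrix Filter Topology
open Pool.Agent.PFS Pool.Agent.PFJ Pool.Agent.NBT

theorem lfd (LFT : LftStmt) (STX : StxStmt) : LfdStmt := by
  intro n C Γ d h w hw φ hφ u huF hucl
  have hC : PCone C := h.toHI.toHK.toCC.toPCone
  have hpes : IsPES C Γ w := hw.pes
  have hlin := Pool.Agent.PFS.H60.lin n C hC (Fin 3) w hpes.1
  have hw1 : w 1 ≠ 0 := hlin.ne_zero 1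
  have hφ1 : φ (w 1) = 0 := hφ.zero 1 (by decide)
  constructor
  · intro hu
    obtain ⟨t, ht, ht0, -⟩ := LFT n C Γ d h w hw φ hφ u huF hu
    refine ⟨u + t • w 1, -t, by linarith [ht0 hucl], ht, ?_, ?_⟩
    · rw [neg_smul, add_neg_cancel_right]
    · rw [map_add, map_smul, hφ1, smul_zero, add_zero]
  · intro hu
    obtain ⟨hS1, -, -, hn1⟩ := STX n C Γ 3 h.toHI.toHK w hpes 0 1 (by decide) (BI C w I01) hw.box
    have hw0F : w 0 ∈ BI C w I01 := hw.box.mem 0 (by simp)
    have hw1F : w 1 ∈ BI C w I01 := hw.box.mem 1 (by simp)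
    have key : ∀ y, Unt C (BI C w I01) y → φ y = 0 → False := by
      intro y hy hy0
      obtain ⟨M, hM, h1⟩ := hy.2.2 (w 0) hw0F
      have h2 := hφ.pos _ h1
      rw [map_sub, map_smul, hy0, smul_zero, hφ.one] at h2
      linarith
    have hex : ∃ c : ℝ, u = c • w 1 := by
      by_contra hno
      push Not at hno
      have hind := ind2_of_ne hw1 hno
      by_cases hun : Unt C (BI C w I01) u
      · exact key u hun hu
      · obtain ⟨h1, -⟩ := hS1 u huF (w 1) hw1F hucl (hpes.1.cl 1) hind hun hn1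
        exact key _ h1 (by rw [map_add, hu, hφ1, add_zero])
    obtain ⟨c, hc⟩ := hex
    refine ⟨c, ?_, hc⟩
    by_contra hneg
    push Not at hneg
    have h1 : -(w 1) ∈ closure C := by
      have h2 : (-c) • (-(w 1)) ∈ closure C := by
        rw [smul_neg, neg_smul, neg_neg, ← hc]
        exact hucl
      exact (hC.cl_smul_iff (by linarith)).1 h2
    exact hw1 (hC.salient _ (hpes.1.cl 1) h1)

end Pool.Agent.KT3.H16
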