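import Pool.Agent.KT3.StmtsA
import Pool.Agent.Helper13_NBT.IBF
import Pool.Agent.Helper64_NBT.IBI
import Pool.Agent.Helper28_NBT.IBL
import Pool.Agent.Helper52_NBT.IZF

set_option autoImplicit false

/-!
# KT3, row WIE: existence of walls
-/

namespace Pool.Agent.KT3.H16

open Matrix Filter Topology
open Pool.Agent.PFS Pool.Agent.PFJ Pool.Agent.NBT

theorem wie (FAY : FayStmt) : WieStmt := by
  intro n C Γ K I d h ⟨w, hw, hd⟩
  have hCC : CC C Γ := h.toHK.toCC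
  have hC : PCone C := hCC.toPCone
  have hK : 2 ≤ K := le_trans (by norm_num) h.toHK.three
  obtain ⟨w', hw', ⟨L, hL, hLd⟩, -⟩ := Pool.Agent.NBT.H52.izf Pool.Agent.NBT.H13.ibf
    Pool.Agent.NBT.H64.ibi Pool.Agent.NBT.H28.ibl n C Γ Γ K hCC hK _ (FAY n C Γ K hCC hK) w hw I
  rw [hd] at hLd
  have hle : L ≤ BI C w' I :=
    ((Pool.Agent.NBT.H13.ibf n C hC K w' hw'.1).1 I L hL).2.1
  have heq : L = BI C w' I :=
    Submodule.eq_of_le_of_finrank_le hle (by rw [hLd]; exact h.maxd w' hw')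
  refine ⟨w', hw', ?_, ?_⟩
  · rw [← heq, hLd]
  · rw [← heq]
    exact hL

end Pool.Agent.KT3.H16
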