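import Pool.Agent.KT3.StmtsC
import Pool.Agent.Helper80_NBT.ZLX
import Pool.Agent.Helper32_NBT.FMS

set_option autoImplicit false

/-!
# KT3, row ZLK: zoom at the fixed vertex
-/

namespace Pool.Agent.KT3.H16

open Matrix Filter Topology
open Pool.Agent.PFS Pool.Agent.PFJ Pool.Agent.NBT

/-- conjugates of an element by zooming elements form a finite set, if the element moves the
zooming points by a bounded amount (as `fix_fam` of `Helper32_NBT/FMS.lean`) -/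
theorem fix_gen {n : ℕ} {C : Set (V n)} {Γ : Subgroup (GL (Fin n) ℝ)} (h : CC C Γ)
    (P : ℕ → V n) (hPC : ∀ m, P m ∈ C) (σ : GL (Fin n) ℝ) (hσ : σ ∈ Γ)
    (c0 c1 : ℝ) (hc0 : 0 < c0) (hc1 : 0 < c1)
    (hb1 : ∀ m, act σ (P m) - c0 • P m ∈ closure C)
    (hb2 : ∀ m, c1 • P m - act σ (P m) ∈ closure C)
    (g : ℕ → GL (Fin n) ℝ) (s : ℕ → ℝ) (p : V n) (hg : ∀ m, g m ∈ Γ) (hs : ∀ m, 0 < s m)
    (hp : p ∈ C) (hlim : Tendsto (fun m => s m • act (g m) (P m)) atTop (𝓝 p)) :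
    (Set.range fun m => g m * σ * (g m)⁻¹).Finite := by
  obtain ⟨f1, f2, -, f4, f5, -, -, -⟩ := Pool.Agent.PFS.H87.cmf n C Γ h
  set Y : ℕ → V n := fun m => s m • act (g m) (P m) with hY
  have hYC : ∀ m, Y m ∈ C := fun m => (h.sact_mem_iff (hg m) (hs m)).2 (hPC m)
  have hcmp : ∀ m, Cmp C (c1 / c0) (act σ (P m)) (P m) := by
    intro m
    refine ⟨c0⁻¹, inv_pos.2 hc0, ?_, ?_⟩
    · have e : c0⁻¹ • act σ (P m) - P m = c0⁻¹ • (act σ (P m) - c0 • P m) := by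
        rw [smul_sub, smul_smul, inv_mul_cancel₀ hc0.ne', one_smul]
      rw [e]
      exact h.toPCone.cl_smul (hb1 m) (inv_pos.2 hc0).le
    · have e : (c1 / c0) • P m - c0⁻¹ • act σ (P m) = c0⁻¹ • (c1 • P m - act σ (P m)) := by
        rw [smul_sub, smul_smul, inv_mul_eq_div]
      rw [e]
      exact h.toPCone.cl_smul (hb2 m) (inv_pos.2 hc0).le
  have hM : 0 ≤ c1 / c0 := by positivity
  set τ : ℕ → GL (Fin n) ℝ := fun m => g m * σ * (g m)⁻¹ with hτ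
  have hτΓ : ∀ m, τ m ∈ Γ := fun m =>
    Γ.mul_mem (Γ.mul_mem (hg m) hσ) (Γ.inv_mem (hg m))
  have hτY : ∀ m, act (τ m) (Y m) = s m • act (g m) (act σ (P m)) := by
    intro m
    rw [hτ, hY]
    simp only
    rw [CC.act_smul, CC.act_mul, CC.act_mul, CC.act_inv_act]
  have hcmp2 : ∀ m, Cmp C (c1 / c0) (act (τ m) (Y m)) (Y m) := by
    intro m
    rw [hτY, hY]
    exact (f5 _ _ _ _ _ (hs m) (hs m)).2 ((f4 _ _ _ _ (hg m)).2 (hcmp m))
  obtain ⟨M1, hM1, hev⟩ := Pool.Agent.PFS.H81.cmc n C h.toPCone Y (fun _ => p) p p hp hp hlim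
    tendsto_const_nhds
  have hM10 : 0 ≤ M1 := by linarith
  have hfin := Pool.Agent.PFS.H3.prp n C Γ h p hp (M1 * (c1 / c0) * M1)
  have hev2 : ∀ᶠ m in atTop, τ m ∈ {γ : GL (Fin n) ℝ | γ ∈ Γ ∧
      Cmp C (M1 * (c1 / c0) * M1) (act γ p) p} := by
    filter_upwards [hev] with m hm
    refine ⟨hτΓ m, ?_⟩
    have hτp : act (τ m) p ∈ C := (h.act_mem_iff (hτΓ m)).2 hp
    have hτYC : act (τ m) (Y m) ∈ C := (h.act_mem_iff (hτΓ m)).2 (hYC m)
    have h1 : Cmp C M1 (act (τ m) (Y m)) (act (τ m) p) := (f4 _ _ _ _ (hτΓ m)).2 hm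
    have h2 : Cmp C M1 (act (τ m) p) (act (τ m) (Y m)) := f1 _ _ _ hτYC hτp h1
    have h3 := f2 _ _ _ _ _ hM10 hM hτp hτYC (hYC m) h2 (hcmp2 m)
    exact f2 _ _ _ _ _ (mul_nonneg hM10 hM) hM10 hτp (hYC m) hp h3 hm
  obtain ⟨N, hN⟩ := eventually_atTop.1 hev2
  refine (hfin.union ((Finset.range N).finite_toSet.image τ)).subset ?_
  rintro _ ⟨m, rfl⟩
  rcases lt_or_ge m N with hm | hm
  · exact Or.inr ⟨m, by simpa using hm, rfl⟩
  · exact Or.inl (hN m hm)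

/-- the zooming points -/
theorem zlk_sum {n k : ℕ} (w : Fin (k + 1) → V n) (t : ℝ) :
    ∑ i, (if i = 0 then t else (1 : ℝ)) • w i = t • w 0 + fS w ({0}ᶜ : Finset (Fin (k + 1))) := by
  rw [← Finset.sum_add_sum_compl ({0} : Finset (Fin (k + 1)))]
  congr 1
  · rw [Finset.sum_singleton, if_pos rfl]
  · unfold fS
    refine Finset.sum_congr rfl fun i hi => ?_
    rw [Finset.mem_compl, Finset.mem_singleton] at hi
    rw [if_neg hi, one_smul]

/-- an element which fixes the ray of `w 0` moves the zooming points by a bounded amount -/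
theorem zlk_dom {n k : ℕ} {C : Set (V n)} (hP : PCone C)
    (w : Fin (k + 1) → V n) (hcl : ∀ i, w i ∈ closure C) (hf : ∑ i, w i ∈ C)
    (γ : GL (Fin n) ℝ) (c : ℝ) (hc : 0 < c) (h0 : act γ (w 0) = c • w 0) :
    ∃ M : ℝ, 0 < M ∧ ∀ t : ℝ, 1 ≤ t →
      M • (t • w 0 + fS w ({0}ᶜ : Finset (Fin (k + 1)))) -
        act γ (t • w 0 + fS w ({0}ᶜ : Finset (Fin (k + 1)))) ∈ closure C := by
  obtain ⟨M, hM, h1⟩ := hP.absorb hf (act γ (fS w ({0}ᶜ : Finset (Fin (k + 1)))))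
  have hRcl : fS w ({0}ᶜ : Finset (Fin (k + 1))) ∈ closure C := fS_cl hP hcl _
  have hsum : ∑ i, w i = w 0 + fS w ({0}ᶜ : Finset (Fin (k + 1))) := by
    rw [← fS_add_compl w ({0} : Finset (Fin (k + 1))), fS_single]
  rw [hsum] at h1
  refine ⟨c + M, by positivity, fun t ht => ?_⟩
  have e : (c + M) • (t • w 0 + fS w ({0}ᶜ : Finset (Fin (k + 1)))) -
        act γ (t • w 0 + fS w ({0}ᶜ : Finset (Fin (k + 1))))
      = c • fS w ({0}ᶜ : Finset (Fin (k + 1))) + (M * (t - 1)) • w 0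
        + (M • (w 0 + fS w ({0}ᶜ : Finset (Fin (k + 1))))
          - act γ (fS w ({0}ᶜ : Finset (Fin (k + 1))))) := by
    rw [CC.act_add, CC.act_smul, h0]
    module
  rw [e]
  refine hP.cl_add (hP.cl_add (hP.cl_smul hRcl hc.le) (hP.cl_smul (hcl 0) ?_))
    (subset_closure h1)
  exact mul_nonneg hM.le (by linarith)

theorem zlk_core {n k : ℕ} {C : Set (V n)} {Γ : Subgroup (GL (Fin n) ℝ)} (h : CC C Γ)
    (T : (Fin (k + 1) → V n) → Prop) (a : Fin (k + 1) → ℝ) (ε σ : ℝ) (w z W : Fin (k + 1) → V n)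
    (g γ : GL (Fin n) ℝ) (s lam : ℝ) (hR : RG C Γ T a ε σ w z g s lam) (hW : T W)
    (hwpes : IsPES C Γ w)
    (hWpes : IsPES C Γ W) (θ : ℕ → ℝ) (hθ : Tendsto θ atTop atTop)
    (gm : ℕ → GL (Fin n) ℝ) (sm : ℕ → ℝ) (hgm : ∀ m, gm m ∈ Γ) (hsm : ∀ m, 0 < sm m)
    (P : V n →ₗ[ℝ] V n)
    (hlimP : ∀ x, Tendsto (fun m => sm m • act (gm m) x) atTop (𝓝 (P x)))
    (hlim0 : Tendsto (fun m => sm m • act (gm m) (Real.exp (θ m) • w 0)) atTop (𝓝 (W 0)))
    (hWi : ∀ i, i ≠ 0 → P (w i) = W i)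
    (hγ : ∀ m, gm m * g * (gm m)⁻¹ = γ) :
    LG C Γ T a ε σ W (fun i => P (z i)) (LinearMap.range P) γ s lam := by
  have hP : PCone C := h.toPCone
  have hγg : ∀ m, gm m * g = γ * gm m := by
    intro m
    rw [← hγ m]
    group
  have hγΓ : γ ∈ Γ := by
    rw [← hγ 0]
    exact Γ.mul_mem (Γ.mul_mem (hgm 0) hR.gm) (Γ.inv_mem (hgm 0))
  have hcomm : ∀ x, P (act g x) = act γ (P x) := by
    intro x
    have h1 := hlimP (act g x)
    have h2 := ((CC.act_continuous γ).tendsto (P x)).comp (hlimP x)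
    refine tendsto_nhds_unique h1 (h2.congr fun m => ?_)
    show act γ (sm m • act (gm m) x) = sm m • act (gm m) (act g x)
    rw [CC.act_smul, ← CC.act_mul, ← CC.act_mul, hγg]
  have hP0 : P (w 0) = 0 := by
    have h1 : Tendsto (fun m => Real.exp (-(θ m)) •
        (sm m • act (gm m) (Real.exp (θ m) • w 0))) atTop (𝓝 ((0 : ℝ) • W 0)) := by
      refine Tendsto.smul ?_ hlim0
      exact Real.tendsto_exp_neg_atTop_nhds_zero.comp hθ
    rw [zero_smul] at h1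
    refine tendsto_nhds_unique (hlimP (w 0)) (h1.congr fun m => ?_)
    rw [CC.act_smul, smul_comm (sm m) (Real.exp (θ m)), smul_smul, ← Real.exp_add,
      neg_add_cancel, Real.exp_zero, one_smul]
  have hPcl : ∀ x ∈ closure C, P x ∈ closure C := by
    intro x hx
    refine isClosed_closure.mem_of_tendsto (hlimP x) (Eventually.of_forall fun m => ?_)
    exact (h.sact_cl_iff (hgm m) (hsm m)).mpr hx
  have hwcl : ∀ i, w i ∈ closure C := hwpes.1.cl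
  have hPf : P (fS w ({0}ᶜ : Finset (Fin (k + 1)))) = fS W ({0}ᶜ : Finset (Fin (k + 1))) := by
    unfold fS
    rw [map_sum]
    refine Finset.sum_congr rfl fun i hi => ?_
    rw [Finset.mem_compl, Finset.mem_singleton] at hi
    exact hWi i hi
  have hsum : ∑ i, w i = w 0 + fS w ({0}ᶜ : Finset (Fin (k + 1))) := by
    rw [← fS_add_compl w ({0} : Finset (Fin (k + 1))), fS_single]
  have hsumW : ∑ i, W i = W 0 + fS W ({0}ᶜ : Finset (Fin (k + 1))) := by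
    rw [← fS_add_compl W ({0} : Finset (Fin (k + 1))), fS_single]
  have hPsum : P (∑ i, w i) = fS W ({0}ᶜ : Finset (Fin (k + 1))) := by
    rw [hsum, map_add, hP0, zero_add, hPf]
  have hWC : ∑ i, W i ∈ C := hWpes.1.sum_mem
  refine ⟨hW, hγΓ, hR.s0, hR.l1, hR.l2, ⟨?_, ?_⟩, ?_, ?_, ?_, ?_⟩
  · -- mem
    intro i hi
    rw [Finset.mem_compl, Finset.mem_singleton] at hi
    exact ⟨w i, hWi i hi⟩
  · -- box
    rintro v ⟨x, rfl⟩ hv
    rw [compl_compl, fS_single] at hv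
    refine cl_of_eps (f := fS W ({0}ᶜ : Finset (Fin (k + 1)))) fun η hη => ?_
    have h1 : Tendsto (fun m => sm m • act (gm m) (x + Real.exp (θ m) • w 0 +
        η • (Real.exp (θ m) • w 0 + fS w ({0}ᶜ : Finset (Fin (k + 1)))))) atTop
        (𝓝 (P x + W 0 + η • (W 0 + fS W ({0}ᶜ : Finset (Fin (k + 1)))))) := by
      have h2 := ((hlimP x).add hlim0).add
        ((hlim0.add (hlimP (fS w ({0}ᶜ : Finset (Fin (k + 1)))))).const_smul η)
      rw [hPf] at h2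
      refine h2.congr fun m => ?_
      rw [CC.act_add, CC.act_add, CC.act_smul _ η, CC.act_add]
      module
    have h3 : P x + W 0 + η • (W 0 + fS W ({0}ᶜ : Finset (Fin (k + 1)))) ∈ C := by
      rw [← hsumW]
      exact hP.cl_add' hv (hP.smul _ hWC η hη)
    obtain ⟨m, hm⟩ := (h1.eventually (hP.isOpen.mem_nhds h3)).exists
    have h4 := (h.sact_mem_iff (hgm m) (hsm m)).mp hm
    have h5 := hPcl _ (subset_closure h4)
    rw [map_add, map_add, map_smul, map_smul, map_add, map_smul, hP0, smul_zero, zero_add,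
      add_zero, hPf] at h5
    exact h5
  · -- inv
    ext v
    rw [mem_img]
    constructor
    · rintro ⟨y, ⟨x, rfl⟩, rfl⟩
      exact ⟨act g x, hcomm x⟩
    · rintro ⟨x, rfl⟩
      refine ⟨P (act g⁻¹ x), ⟨act g⁻¹ x, rfl⟩, ?_⟩
      rw [← hcomm, CC.act_act_inv]
  · -- e0
    have h1 : Tendsto (fun m => s • act γ (sm m • act (gm m) (Real.exp (θ m) • w 0))) atTop
        (𝓝 (s • act γ (W 0))) :=
      (((CC.act_continuous γ).tendsto (W 0)).comp hlim0).const_smul s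
    have h2 : Tendsto (fun m => (Real.exp (a 0 * σ) * lam) •
        (sm m • act (gm m) (Real.exp (θ m) • w 0))) atTop
        (𝓝 ((Real.exp (a 0 * σ) * lam) • W 0)) := hlim0.const_smul _
    refine tendsto_nhds_unique h1 (h2.congr fun m => ?_)
    have h3 : s • act γ (sm m • act (gm m) (Real.exp (θ m) • w 0))
        = sm m • act (gm m) (Real.exp (θ m) • (s • act g (w 0))) := by
      rw [CC.act_smul, ← CC.act_mul, ← hγg, CC.act_mul, CC.act_smul, CC.act_smul, CC.act_smul,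
        CC.act_smul, smul_comm s (sm m), smul_comm s (Real.exp (θ m))]
    rw [h3, hR.e0, CC.act_smul, CC.act_smul, CC.act_smul]
    module
  · -- ei
    intro i hi
    rw [← hWi i hi, ← hcomm, ← map_smul, hR.ei i hi, map_smul]
  · -- nr
    intro i hi
    obtain ⟨h1, h2, h3⟩ := hR.nr i hi
    refine ⟨⟨z i, rfl⟩, hPcl _ h1, ?_, ?_⟩
    · have h4 := hPcl _ h2
      rw [map_sub, map_smul, hPsum, map_sub, hWi i hi] at h4
      exact h4
    · have h4 := hPcl _ h3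
      rw [map_add, map_smul, hPsum, map_sub, hWi i hi] at h4
      exact h4

theorem zlk : ZlkStmt := by
  classical
  intro n k C Γ hHK T hT a ε σ w z g s lam hR
  have h : CC C Γ := hHK.toCC
  have hP : PCone C := h.toPCone
  obtain ⟨B, hB, hnrm⟩ := Pool.Agent.NBT.H80.nrm hP
  have hwpes := hT.pes w hR.tw
  have hwcl : ∀ i, w i ∈ closure C := hwpes.1.cl
  have hfC : ∑ i, w i ∈ C := hwpes.1.sum_mem
  let ρ : ℕ → Fin (k + 1) → ℝ := fun m i => if i = 0 then Real.exp (m : ℝ) else 1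
  have hρ : ∀ m i, 0 < ρ m i := by
    intro m i
    show 0 < (if i = 0 then Real.exp (m : ℝ) else (1 : ℝ))
    split_ifs
    · exact Real.exp_pos _
    · exact one_pos
  have hρsum : ∀ m, ∑ i, ρ m i • w i
      = Real.exp (m : ℝ) • w 0 + fS w ({0}ᶜ : Finset (Fin (k + 1))) := fun m => zlk_sum w _
  have hyT : ∀ m, T (fun i => ρ m i • w i) := fun m => hT.scl w hR.tw (ρ m) (hρ m)
  have hyC : ∀ m, ∑ i, ρ m i • w i ∈ C := fun m => (hT.pes _ (hyT m)).1.sum_mem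
  have hyH : ∀ m, ∑ i, ρ m i • w i ∈ Hull C Γ := fun m =>
    (Pool.Agent.PFS.H60.elm n C Γ h (Fin (k + 1)) w hwpes).2.2.2.1 (ρ m) (hρ m)
  obtain ⟨φ1, g1, s1, p, hφ1, hg1, hs1, hpC, hlim1⟩ :=
    Pool.Agent.PFS.H60.zom n C Γ h (fun m => ∑ i, ρ m i • w i) hyC hyH
  have hyT2 : ∀ m, T (fun i => s1 m • act (g1 m) (ρ (φ1 m) i • w i)) := fun m =>
    hT.inv _ (hyT (φ1 m)) (g1 m) (hg1 m) (s1 m) (hs1 m)
  have hlim2 : Tendsto (fun m => ∑ i, s1 m • act (g1 m) (ρ (φ1 m) i • w i)) atTop (𝓝 p) := by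
    refine hlim1.congr fun m => ?_
    rw [CC.act_sum, Finset.smul_sum]
  have hK : 2 ≤ Fintype.card (Fin (k + 1)) := by
    rw [Fintype.card_fin]
    have := hHK.three
    omega
  obtain ⟨φ2, W, hφ2, hlimW, hWp, hWpes⟩ := Pool.Agent.PFS.H37.lpsF n C Γ h (Fin (k + 1)) hK
    (fun m i => s1 m • act (g1 m) (ρ (φ1 m) i • w i)) p (fun m => hT.pes _ (hyT2 m)) hpC hlim2
  have hW : T W := by
    refine hT.cld _ W (fun m => hyT2 (φ2 m)) hlimW ?_
    rw [hWp]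
    exact hpC
  have hφ12 : StrictMono (fun m => φ1 (φ2 m)) := hφ1.comp hφ2
  have hsum : Tendsto (fun m => s1 (φ2 m) • act (g1 (φ2 m)) (∑ i, ρ (φ1 (φ2 m)) i • w i)) atTop
      (𝓝 p) := hlim1.comp hφ2.tendsto_atTop
  -- the bounds for `g`
  have hc : 0 < Real.exp (a 0 * σ) * lam / s :=
    div_pos (mul_pos (Real.exp_pos _) (lt_of_lt_of_le (by norm_num) hR.l1)) hR.s0
  have hg0 : act g (w 0) = (Real.exp (a 0 * σ) * lam / s) • w 0 := by
    have h1 := congrArg (fun v => s⁻¹ • v) hR.e0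
    rw [smul_smul, inv_mul_cancel₀ hR.s0.ne', one_smul, smul_smul] at h1
    rw [h1, div_eq_inv_mul]
  have hg0' : act g⁻¹ (w 0) = (Real.exp (a 0 * σ) * lam / s)⁻¹ • w 0 := by
    have h1 := congrArg (fun v => act g⁻¹ v) hg0
    rw [CC.act_inv_act, CC.act_smul] at h1
    rw [eq_inv_smul_iff₀ hc.ne']
    exact h1.symm
  obtain ⟨M1, hM1, hd1⟩ := zlk_dom hP w hwcl hfC g _ hc hg0
  obtain ⟨M2, hM2, hd2⟩ := zlk_dom hP w hwcl hfC g⁻¹ _ (inv_pos.2 hc) hg0'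
  have hexp1 : ∀ m : ℕ, (1 : ℝ) ≤ Real.exp (m : ℝ) := fun m =>
    Real.one_le_exp (Nat.cast_nonneg m)
  have hfin := fix_gen h (fun m => ∑ i, ρ (φ1 (φ2 m)) i • w i) (fun m => hyC _) g hR.gm
    M2⁻¹ M1 (inv_pos.2 hM2) hM1 (by
      intro m
      rw [hρsum]
      have h1 := hd2 _ (hexp1 (φ1 (φ2 m)))
      have h2 := (h.act_cl_iff hR.gm).2 h1
      rw [CC.act_sub, CC.act_act_inv, CC.act_smul] at h2
      have h3 := hP.cl_smul h2 (inv_pos.2 hM2).le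
      rw [smul_sub, smul_smul, inv_mul_cancel₀ hM2.ne', one_smul] at h3
      exact h3) (by
      intro m
      rw [hρsum]
      exact hd1 _ (hexp1 (φ1 (φ2 m)))) (fun m => g1 (φ2 m)) (fun m => s1 (φ2 m)) p
    (fun m => hg1 _) (fun m => hs1 _) hpC hsum
  obtain ⟨ψ, hψ, hconst⟩ := Pool.Agent.NBT.H32.const_subseq _ hfin
  -- the linear limit
  have hφ123 : StrictMono (fun m => φ1 (φ2 (ψ m))) := hφ12.comp hψ
  have hsum3 : Tendsto (fun m => s1 (φ2 (ψ m)) • act (g1 (φ2 (ψ m)))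
      (∑ i, ρ (φ1 (φ2 (ψ m))) i • w i)) atTop (𝓝 p) := hsum.comp hψ.tendsto_atTop
  have hbP : ∀ v ∈ (⊤ : Submodule ℝ (V n)), ∃ B' : ℝ,
      ∀ᶠ m in atTop, ‖Pool.Agent.NBT.H80.sl (s1 (φ2 (ψ m))) (g1 (φ2 (ψ m))) v‖ ≤ B' := by
    intro v _
    obtain ⟨M, hM, hMa, hMb⟩ := absorb_two hP hfC v
    refine ⟨B * (M * (‖p‖ + 1)), ?_⟩
    have h1 : ∀ᶠ m in atTop, ‖s1 (φ2 (ψ m)) • act (g1 (φ2 (ψ m)))
        (∑ i, ρ (φ1 (φ2 (ψ m))) i • w i)‖ < ‖p‖ + 1 :=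
      (hsum3.norm).eventually_lt_const (by linarith)
    filter_upwards [h1] with m hm
    have h2 : (∑ i, ρ (φ1 (φ2 (ψ m))) i • w i) - ∑ i, w i ∈ closure C := by
      rw [← Finset.sum_sub_distrib]
      refine hP.cl_sum fun i _ => ?_
      have h3 : ρ (φ1 (φ2 (ψ m))) i • w i - w i = (ρ (φ1 (φ2 (ψ m))) i - 1) • w i := by
        rw [sub_smul, one_smul]
      rw [h3]
      refine hP.cl_smul (hwcl i) ?_
      show 0 ≤ (if i = 0 then Real.exp ((φ1 (φ2 (ψ m)) : ℕ) : ℝ) else (1 : ℝ)) - 1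
      split_ifs
      · have := hexp1 (φ1 (φ2 (ψ m)))
        linarith
      · simp
    have h4 : ∀ z : V n, M • (∑ i, w i) + z ∈ closure C →
        M • (∑ i, ρ (φ1 (φ2 (ψ m))) i • w i) + z ∈ closure C := by
      intro z hz
      have h5 : M • (∑ i, ρ (φ1 (φ2 (ψ m))) i • w i) + z =
          M • ((∑ i, ρ (φ1 (φ2 (ψ m))) i • w i) - ∑ i, w i) + (M • (∑ i, w i) + z) := by
        rw [smul_sub]
        abel
      rw [h5]
      exact hP.cl_add (hP.cl_smul h2 hM.le) hz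
    have h6 : M • (∑ i, ρ (φ1 (φ2 (ψ m))) i • w i) - v ∈ closure C := by
      rw [sub_eq_add_neg]
      refine h4 _ ?_
      rw [← sub_eq_add_neg]
      exact subset_closure hMa
    have h7 : M • (∑ i, ρ (φ1 (φ2 (ψ m))) i • w i) + v ∈ closure C := h4 _ (subset_closure hMb)
    have hgm := hg1 (φ2 (ψ m))
    have h8 := (h.sact_cl_iff hgm (hs1 (φ2 (ψ m)))).mpr h6
    have h9 := (h.sact_cl_iff hgm (hs1 (φ2 (ψ m)))).mpr h7
    rw [CC.act_sub, CC.act_smul, smul_sub, smul_comm (s1 (φ2 (ψ m))) M] at h8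
    rw [CC.act_add, CC.act_smul, smul_add, smul_comm (s1 (φ2 (ψ m))) M] at h9
    have h10 := hnrm _ _ h8 h9
    rw [Pool.Agent.NBT.H80.sl_apply]
    refine h10.trans ?_
    rw [norm_smul, Real.norm_of_nonneg hM.le]
    gcongr
  obtain ⟨φ3, P, hφ3, hPlim⟩ := Pool.Agent.NBT.H80.lin_sub ⊤
    (fun m => Pool.Agent.NBT.H80.sl (s1 (φ2 (ψ m))) (g1 (φ2 (ψ m)))) hbP
  have hlimP : ∀ x, Tendsto (fun m => s1 (φ2 (ψ (φ3 m))) • act (g1 (φ2 (ψ (φ3 m)))) x) atTop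
      (𝓝 (P x)) := fun x =>
    hPlim id tendsto_id (fun _ => x) x (fun _ => Submodule.mem_top) tendsto_const_nhds
  have hlimi : ∀ i, Tendsto (fun m => s1 (φ2 (ψ (φ3 m))) • act (g1 (φ2 (ψ (φ3 m))))
      (ρ (φ1 (φ2 (ψ (φ3 m)))) i • w i)) atTop (𝓝 (W i)) := fun i =>
    (hlimW i).comp (hψ.comp hφ3).tendsto_atTop
  refine ⟨W, fun i => P (z i), LinearMap.range P, g1 (φ2 (ψ 0)) * g * (g1 (φ2 (ψ 0)))⁻¹, ?_⟩
  refine zlk_core h T a ε σ w z W g _ s lam hR hW hwpes hWpes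
    (fun m => ((φ1 (φ2 (ψ (φ3 m))) : ℕ) : ℝ)) ?_ (fun m => g1 (φ2 (ψ (φ3 m))))
    (fun m => s1 (φ2 (ψ (φ3 m)))) (fun m => hg1 _) (fun m => hs1 _) P hlimP ?_ ?_ ?_
  · exact tendsto_natCast_atTop_atTop.comp (hφ123.comp hφ3).tendsto_atTop
  · refine (hlimi 0).congr fun m => ?_
    show s1 (φ2 (ψ (φ3 m))) • act (g1 (φ2 (ψ (φ3 m)))) ((if (0 : Fin (k + 1)) = 0 then
      Real.exp ((φ1 (φ2 (ψ (φ3 m))) : ℕ) : ℝ) else (1 : ℝ)) • w 0) = _
    rw [if_pos rfl]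
  · intro i hi
    refine tendsto_nhds_unique (hlimP (w i)) ((hlimi i).congr fun m => ?_)
    show s1 (φ2 (ψ (φ3 m))) • act (g1 (φ2 (ψ (φ3 m)))) ((if i = 0 then
      Real.exp ((φ1 (φ2 (ψ (φ3 m))) : ℕ) : ℝ) else (1 : ℝ)) • w i) = _
    rw [if_neg hi, one_smul]
  · intro m
    exact hconst (φ3 m)

end Pool.Agent.KT3.H16
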